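import Pool.Agent.H95.Pan.Defs

/-!
# PAN-GEO: the planar extension lemma
-/

set_option autoImplicit false

namespace Pool.Agent.H95.Pan

namespace GEOx

theorem heron {A C d : ℝ} (hA : 361 / 400 < A) (hA' : A < 441 / 400) (hC : 361 / 400 < C)
    (hC' : C < 441 / 400) (hd : 361 / 400 < d) (hd' : d < 441 / 400) :
    9 / 16 ≤ A * d - ((A - C + d) / 2) ^ 2 ∧ A * d - ((A - C + d) / 2) ^ 2 ≤ 1 := by
  obtain ⟨x, hx⟩ : ∃ x, x = A - 1 := ⟨_, rfl⟩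
  obtain ⟨y, hy⟩ : ∃ y, y = C - 1 := ⟨_, rfl⟩
  obtain ⟨z, hz⟩ : ∃ z, z = d - 1 := ⟨_, rfl⟩
  have hx1 : -(41 / 400) < x := by linarith
  have hx2 : x < 41 / 400 := by linarith
  have hy1 : -(41 / 400) < y := by linarith
  have hy2 : y < 41 / 400 := by linarith
  have hz1 : -(41 / 400) < z := by linarith
  have hz2 : z < 41 / 400 := by linarith
  have e : A * d - ((A - C + d) / 2) ^ 2 =
      (3 + 2 * (x + y + z) + 2 * (x * y) + 2 * (y * z) + 2 * (z * x) - x ^ 2 - y ^ 2 - z ^ 2) / 4 := by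
    rw [hx, hy, hz]; ring
  have hxx : x ^ 2 ≤ (41 / 400) ^ 2 := sq_le_sq' hx1.le hx2.le
  have hyy : y ^ 2 ≤ (41 / 400) ^ 2 := sq_le_sq' hy1.le hy2.le
  have hzz : z ^ 2 ≤ (41 / 400) ^ 2 := sq_le_sq' hz1.le hz2.le
  have h1 : 2 * (x * y) ≤ x ^ 2 + y ^ 2 := by nlinarith [sq_nonneg (x - y)]
  have h2 : 2 * (y * z) ≤ y ^ 2 + z ^ 2 := by nlinarith [sq_nonneg (y - z)]
  have h3 : 2 * (z * x) ≤ z ^ 2 + x ^ 2 := by nlinarith [sq_nonneg (z - x)]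
  have h1' : -(x ^ 2 + y ^ 2) ≤ 2 * (x * y) := by nlinarith [sq_nonneg (x + y)]
  have h2' : -(y ^ 2 + z ^ 2) ≤ 2 * (y * z) := by nlinarith [sq_nonneg (y + z)]
  have h3' : -(z ^ 2 + x ^ 2) ≤ 2 * (z * x) := by nlinarith [sq_nonneg (z + x)]
  rw [e]
  constructor
  · have : -(39 / 400) < x := by linarith
    have : -(39 / 400) < y := by linarith
    have : -(39 / 400) < z := by linarith
    linarith
  · linarith

/-- the squared distance in coordinates -/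
def Q (x0 x1 y0 y1 : ℝ) : ℝ := (x0 - y0) ^ 2 + (x1 - y1) ^ 2

theorem core (a0 a1 b0 b1 c0 c1 : ℝ) (h1 : 361 / 400 < Q a0 a1 b0 b1)
    (h1' : Q a0 a1 b0 b1 < 441 / 400) (h2 : 361 / 400 < Q a0 a1 c0 c1)
    (h2' : Q a0 a1 c0 c1 < 441 / 400) (h3 : 361 / 400 < Q b0 b1 c0 c1)
    (h3' : Q b0 b1 c0 c1 < 441 / 400) (sa sb sc : Prop) (T : Set ℝ) (hT : T.Finite) :
    ∃ x0 x1 : ℝ, Q b0 b1 x0 x1 ∉ T ∧ (sa ↔ Q a0 a1 x0 x1 ≤ 1) ∧ (sb ↔ Q b0 b1 x0 x1 ≤ 1) ∧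
      (sc ↔ Q c0 c1 x0 x1 ≤ 1) ∧ 361 / 400 < Q b0 b1 x0 x1 ∧ Q b0 b1 x0 x1 < 441 / 400 ∧
      361 / 400 < Q c0 c1 x0 x1 ∧ Q c0 c1 x0 x1 < 441 / 400 := by
  -- the radii
  obtain ⟨R, hR, hR1, hR2, hR3⟩ : ∃ R : ℝ, R ∉ T ∧ 361 / 400 < R ∧ R < 441 / 400 ∧
      (sb ↔ R ≤ 1) := by
    by_cases h : sb
    · obtain ⟨R, hR, hR'⟩ := (Set.Ioo_infinite (show (361 / 400 : ℝ) < 1 by norm_num)).exists_notMem_finite hT
      exact ⟨R, hR', hR.1, by linarith [hR.2], fun _ => hR.2.le, fun _ => h⟩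
    · obtain ⟨R, hR, hR'⟩ := (Set.Ioo_infinite (show (1 : ℝ) < 441 / 400 by norm_num)).exists_notMem_finite hT
      exact ⟨R, hR', by linarith [hR.1], hR.2, fun h' => absurd h' h, fun h' =>
        absurd h' (not_le.2 hR.1)⟩
  obtain ⟨S, hS1, hS2, hS3⟩ : ∃ S : ℝ, 361 / 400 < S ∧ S < 441 / 400 ∧ (sc ↔ S ≤ 1) := by
    by_cases h : sc
    · exact ⟨1, by norm_num, by norm_num, fun _ => le_rfl, fun _ => h⟩
    · exact ⟨21 / 20, by norm_num, by norm_num, fun h' => absurd h' h, fun h' => by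
        norm_num at h'⟩
  obtain ⟨d, hd⟩ : ∃ d, d = Q b0 b1 c0 c1 := ⟨_, rfl⟩
  obtain ⟨A, hA⟩ : ∃ A, A = Q a0 a1 b0 b1 := ⟨_, rfl⟩
  obtain ⟨C, hC⟩ : ∃ C, C = Q a0 a1 c0 c1 := ⟨_, rfl⟩
  rw [← hd] at h3 h3'
  rw [← hA] at h1 h1'
  rw [← hC] at h2 h2'
  have hdpos : 0 < d := by linarith
  obtain ⟨u, hu⟩ : ∃ u, u = (a0 - b0) * (c0 - b0) + (a1 - b1) * (c1 - b1) := ⟨_, rfl⟩
  obtain ⟨v, hv⟩ : ∃ v, v = -(a0 - b0) * (c1 - b1) + (a1 - b1) * (c0 - b0) := ⟨_, rfl⟩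
  have hu' : u = (A - C + d) / 2 := by
    rw [hu, hA, hC, hd]; unfold Q; ring
  have huv : v ^ 2 = A * d - u ^ 2 := by
    rw [hu, hv, hA, hd]; unfold Q; ring
  obtain ⟨hv1, hv2⟩ := heron h1 h1' h2 h2' h3 h3'
  rw [← hu', ← huv] at hv1 hv2
  obtain ⟨p, hp⟩ : ∃ p, p = (R - S + d) / 2 := ⟨_, rfl⟩
  obtain ⟨hw1, hw2⟩ := heron hR1 hR2 hS1 hS2 h3 h3'
  rw [← hp] at hw1 hw2
  obtain ⟨w, hw⟩ : ∃ w, w = Real.sqrt (R * d - p ^ 2) := ⟨_, rfl⟩
  have hw0 : 0 ≤ w := by rw [hw]; exact Real.sqrt_nonneg _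
  have hww : w ^ 2 = R * d - p ^ 2 := by
    rw [hw, Real.sq_sqrt (by linarith)]
  rw [← hww] at hw1 hw2
  have hwa : 3 / 4 ≤ w := by nlinarith
  have hwb : w ≤ 1 := by nlinarith
  have hva : 3 / 4 ≤ |v| := by
    rw [← sq_abs] at hv1
    nlinarith [abs_nonneg v]
  have hvb : |v| ≤ 1 := by
    rw [← sq_abs] at hv2
    nlinarith [abs_nonneg v]
  have hpu : (p - u) ^ 2 ≤ 1 / 25 := by
    have e1 : p - u ≤ 1 / 5 := by rw [hp, hu']; linarith
    have e2 : -(1 / 5) ≤ p - u := by rw [hp, hu']; linarith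
    nlinarith
  -- the sign
  obtain ⟨q, hq1, hq2⟩ : ∃ q : ℝ, q ^ 2 = w ^ 2 ∧ (sa ↔ (p - u) ^ 2 + (q - v) ^ 2 ≤ d) := by
    rcases le_total 0 v with hv0 | hv0
    · rw [abs_of_nonneg hv0] at hva hvb
      by_cases h : sa
      · refine ⟨w, rfl, fun _ => ?_, fun _ => h⟩
        nlinarith
      · refine ⟨-w, by ring, fun h' => absurd h' h, fun h' => ?_⟩
        exfalso
        nlinarith [sq_nonneg (p - u)]
    · rw [abs_of_nonpos hv0] at hva hvb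
      by_cases h : sa
      · refine ⟨-w, by ring, fun _ => ?_, fun _ => h⟩
        nlinarith
      · refine ⟨w, rfl, fun h' => absurd h' h, fun h' => ?_⟩
        exfalso
        nlinarith [sq_nonneg (p - u)]
  have hqd : q ^ 2 = R * d - p ^ 2 := hq1.trans hww
  have hDD : (c0 - b0) ^ 2 + (c1 - b1) ^ 2 = d := by rw [hd]; unfold Q; ring
  have kb : Q b0 b1 (b0 + (p * (c0 - b0) - q * (c1 - b1)) / d)
      (b1 + (p * (c1 - b1) + q * (c0 - b0)) / d) = R := by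
    have e1 : Q b0 b1 (b0 + (p * (c0 - b0) - q * (c1 - b1)) / d)
      (b1 + (p * (c1 - b1) + q * (c0 - b0)) / d) =
        (p ^ 2 + q ^ 2) * ((c0 - b0) ^ 2 + (c1 - b1) ^ 2) / d ^ 2 := by
      unfold Q; field_simp; ring
    rw [e1, hDD, hqd]
    field_simp
    ring
  have kc : Q c0 c1 (b0 + (p * (c0 - b0) - q * (c1 - b1)) / d)
      (b1 + (p * (c1 - b1) + q * (c0 - b0)) / d) = S := by
    have e1 : Q c0 c1 (b0 + (p * (c0 - b0) - q * (c1 - b1)) / d)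
      (b1 + (p * (c1 - b1) + q * (c0 - b0)) / d) =
        (p ^ 2 + q ^ 2) * ((c0 - b0) ^ 2 + (c1 - b1) ^ 2) / d ^ 2 -
          2 * p * ((c0 - b0) ^ 2 + (c1 - b1) ^ 2) / d + ((c0 - b0) ^ 2 + (c1 - b1) ^ 2) := by
      unfold Q; field_simp; ring
    rw [e1, hDD, hqd, hp]
    field_simp
    ring
  have ka : Q a0 a1 (b0 + (p * (c0 - b0) - q * (c1 - b1)) / d)
      (b1 + (p * (c1 - b1) + q * (c0 - b0)) / d) = ((p - u) ^ 2 + (q - v) ^ 2) / d := by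
    have e1 : Q a0 a1 (b0 + (p * (c0 - b0) - q * (c1 - b1)) / d)
      (b1 + (p * (c1 - b1) + q * (c0 - b0)) / d) =
        (p ^ 2 + q ^ 2) * ((c0 - b0) ^ 2 + (c1 - b1) ^ 2) / d ^ 2 -
          2 * (p * u + q * v) / d + A := by
      rw [hu, hv, hA]; unfold Q; field_simp; ring
    rw [e1, hDD]
    have e2 : A = (u ^ 2 + v ^ 2) / d := by
      rw [huv]; field_simp; ring
    rw [e2]
    field_simp
    ring
  refine ⟨_, _, by rw [kb]; exact hR, ?_, by rw [kb]; exact hR3, by rw [kc]; exact hS3,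
    by rw [kb]; exact hR1, by rw [kb]; exact hR2, by rw [kc]; exact hS1, by rw [kc]; exact hS2⟩
  rw [ka, div_le_one hdpos]
  exact hq2

theorem dist_sq (x y : Plane) : dist x y = Real.sqrt (Q (x 0) (x 1) (y 0) (y 1)) := by
  rw [EuclideanSpace.dist_eq, Fin.sum_univ_two]
  unfold Q
  rw [Real.dist_eq, Real.dist_eq, sq_abs, sq_abs]

theorem Q_nonneg (a b c d : ℝ) : 0 ≤ Q a b c d := by unfold Q; positivity

theorem dist_le_one (x y : Plane) : dist x y ≤ 1 ↔ Q (x 0) (x 1) (y 0) (y 1) ≤ 1 := by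
  rw [dist_sq, Real.sqrt_le_one]

theorem lo (x y : Plane) : 19 / 20 < dist x y ↔ 361 / 400 < Q (x 0) (x 1) (y 0) (y 1) := by
  rw [dist_sq, Real.lt_sqrt (by norm_num)]
  norm_num

theorem hi (x y : Plane) : dist x y < 21 / 20 ↔ Q (x 0) (x 1) (y 0) (y 1) < 441 / 400 := by
  rw [dist_sq, Real.sqrt_lt' (by norm_num)]
  norm_num

theorem three (k : Fin 3) : ∃ i j : Fin 3, i ≠ j ∧ i ≠ k ∧ j ≠ k ∧
    ∀ l : Fin 3, l = k ∨ l = i ∨ l = j := by
  revert k; decide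

end GEOx

open GEOx

/-- GEO1: frames exist. -/
theorem exists_frame : ∃ f : Fin 3 → Plane, Frame f := by
  have h3 : Real.sqrt 3 ^ 2 = 3 := Real.sq_sqrt (by norm_num)
  refine ⟨![!₂[0, 0], !₂[1, 0], !₂[1 / 2, Real.sqrt 3 / 2]], fun i j hij => ?_⟩
  rw [lo, hi]
  unfold Q
  fin_cases i <;> fin_cases j <;> simp at hij ⊢ <;> constructor <;> nlinarith

/-- GEO2: extension.  `sh j` says whether the new point must be at distance ≤ 1 from `f j`. -/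
theorem extend (f : Fin 3 → Plane) (hf : Frame f) (k : Fin 3) (sh : Fin 3 → Prop)
    (F : Set Plane) (hF : F.Finite) :
    ∃ x : Plane, x ∉ F ∧ (∀ j, sh j ↔ dist (f j) x ≤ 1) ∧ Frame (Function.update f k x) := by
  obtain ⟨i, j, hij, hik, hjk, hall⟩ := three k
  have hki := hf k i hik.symm
  have hkj := hf k j hjk.symm
  have hij' := hf i j hij
  rw [lo, hi] at hki hkj hij'
  obtain ⟨x0, x1, m0, ma, mb, mc, m1, m2, m3, m4⟩ := core (f k 0) (f k 1) (f i 0) (f i 1)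
    (f j 0) (f j 1) hki.1 hki.2 hkj.1 hkj.2 hij'.1 hij'.2 (sh k) (sh i) (sh j)
    ((fun y : Plane => Q (f i 0) (f i 1) (y 0) (y 1)) '' F) (hF.image _)
  have hx0 : (!₂[x0, x1] : Plane) 0 = x0 := rfl
  have hx1 : (!₂[x0, x1] : Plane) 1 = x1 := rfl
  refine ⟨!₂[x0, x1], ?_, ?_, ?_⟩
  · intro h
    exact m0 ⟨_, h, rfl⟩
  · intro l
    rw [dist_le_one, hx0, hx1]
    rcases hall l with rfl | rfl | rfl
    · exact ma
    · exact mb
    · exact mc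
  · have hi1 : 19 / 20 < dist (f i) (!₂[x0, x1] : Plane) ∧
        dist (f i) (!₂[x0, x1] : Plane) < 21 / 20 := by
      rw [lo, hi, hx0, hx1]; exact ⟨m1, m2⟩
    have hj1 : 19 / 20 < dist (f j) (!₂[x0, x1] : Plane) ∧
        dist (f j) (!₂[x0, x1] : Plane) < 21 / 20 := by
      rw [lo, hi, hx0, hx1]; exact ⟨m3, m4⟩
    have key : ∀ l, l ≠ k → 19 / 20 < dist (f l) (!₂[x0, x1] : Plane) ∧
        dist (f l) (!₂[x0, x1] : Plane) < 21 / 20 := by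
      intro l hl
      rcases hall l with rfl | rfl | rfl
      · exact absurd rfl hl
      · exact hi1
      · exact hj1
    intro p q hpq
    by_cases hp : p = k
    · have hq : q ≠ k := fun h => hpq (hp.trans h.symm)
      rw [hp, Function.update_self, Function.update_of_ne hq, dist_comm]
      exact key q hq
    · by_cases hq : q = k
      · rw [hq, Function.update_self, Function.update_of_ne hp]
        exact key p hp
      · rw [Function.update_of_ne hp, Function.update_of_ne hq]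
        exact hf p q hpq

end Pool.Agent.H95.Pan
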